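import Pool.Agent.H28.GU.TargetsC

/-!
# Row FV of the board guc_modules: the fibre over zero of the sixfold sums
-/

set_option autoImplicit false

open Finset Filter Topology
open scoped Pointwise

namespace Pool.Agent.H31.GU

open Pool.Agent.H28.GU

private theorem sum_mem_nsmul {G : Type} [AddCommGroup G] [DecidableEq G] (A : Finset G) (n : ℕ)
    (x : Fin n → G) (hx : ∀ j, x j ∈ A) : ∑ j, x j ∈ n • A := by
  induction n with
  | zero => simp
  | succ n ih =>
    rw [Fin.sum_univ_succ, add_comm (x 0), succ_nsmul]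
    exact Finset.add_mem_add (ih _ (fun j => hx _)) (hx 0)

theorem pf_FV : T_FV := by
  classical
  intro C hC
  refine ⟨⌈C ^ 13⌉₊, ?_⟩
  intro q _ Γ hΓ hinj hcard
  set V : Finset (ZMod q) := Finset.univ.filter
    (fun v => ((0 : ZMod q), v) ∈ (6 • Γ - 6 • Γ : Finset (ZMod q × ZMod q))) with hV
  have hΓ0 : (0 : ℝ) < Γ.card := by exact_mod_cast hΓ.card_pos
  refine ⟨V, ?_, ?_⟩
  · have h1 : V.card * Γ.card ≤ (7 • Γ - 6 • Γ : Finset (ZMod q × ZMod q)).card := by
      rw [← Finset.card_product]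
      refine Finset.card_le_card_of_injOn (fun z : ZMod q × (ZMod q × ZMod q) =>
        ((0 : ZMod q), z.1) + z.2) ?_ ?_
      · intro z hz
        have hz' := Finset.mem_product.mp hz
        have h2 := (Finset.mem_filter.mp hz'.1).2
        obtain ⟨a, ha, b, hb, hab⟩ := Finset.mem_sub.mp h2
        show ((0 : ZMod q), z.1) + z.2 ∈ (7 • Γ - 6 • Γ : Finset (ZMod q × ZMod q))
        rw [← hab]
        have h3 : a - b + z.2 = (a + z.2) - b := by abel
        rw [h3]
        refine Finset.sub_mem_sub ?_ hb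
        rw [show (7 : ℕ) = 6 + 1 from rfl, succ_nsmul]
        exact Finset.add_mem_add ha hz'.2
      · intro z hz w hw hzw
        have hz' := Finset.mem_product.mp (Finset.mem_coe.mp hz)
        have hw' := Finset.mem_product.mp (Finset.mem_coe.mp hw)
        have h2 : z.2.1 = w.2.1 := by
          have := congrArg Prod.fst hzw
          simpa using this
        have h3 : z.2 = w.2 := hinj (Finset.mem_coe.mpr hz'.2) (Finset.mem_coe.mpr hw'.2) h2
        have h4 : z.1 = w.1 := by
          have := congrArg Prod.snd hzw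
          simp only [Prod.snd_add, h3] at this
          exact add_right_cancel this
        exact Prod.ext h4 h3
    have h2 := Finset.pluennecke_ruzsa_inequality_nsmul_sub_nsmul_sub hΓ Γ 7 6
    have h3 : (((7 • Γ - 6 • Γ : Finset (ZMod q × ZMod q)).card : ℕ) : ℝ) ≤ C ^ 13 * Γ.card := by
      have h4 : (((7 • Γ - 6 • Γ : Finset (ZMod q × ZMod q)).card : ℕ) : ℝ) ≤
          ((((Γ - Γ).card : ℕ) : ℝ) / ((Γ.card : ℕ) : ℝ)) ^ (7 + 6) * ((Γ.card : ℕ) : ℝ) := by
        have h5 := (NNRat.cast_le (K := ℝ)).mpr h2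
        push_cast at h5
        exact h5
      refine le_trans h4 ?_
      refine mul_le_mul_of_nonneg_right ?_ hΓ0.le
      refine pow_le_pow_left₀ (by positivity) ?_ 13
      rw [div_le_iff₀ hΓ0]
      exact hcard
    have h5 : ((V.card : ℕ) : ℝ) * Γ.card ≤ C ^ 13 * Γ.card :=
      le_trans (by exact_mod_cast h1) h3
    have h6 : ((V.card : ℕ) : ℝ) ≤ C ^ 13 := le_of_mul_le_mul_right h5 hΓ0
    exact_mod_cast le_trans h6 (Nat.le_ceil _)
  · intro x y hx hy hxy
    rw [hV, Finset.mem_filter]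
    refine ⟨Finset.mem_univ _, ?_⟩
    have h1 : ((0 : ZMod q), ∑ j, (x j).2 - ∑ j, (y j).2) = ∑ j, x j - ∑ j, y j := by
      refine Prod.ext ?_ ?_
      · simp [Prod.fst_sum, hxy]
      · simp [Prod.snd_sum]
    rw [h1]
    exact Finset.sub_mem_sub (sum_mem_nsmul Γ 6 x hx) (sum_mem_nsmul Γ 6 y hy)

end Pool.Agent.H31.GU
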